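import Pool.Agent.MP_28f2cb_lc.H93.Final

/-! The analogue in characteristic `p` in all dimensions: the integral closure of a finitely
generated subring is Diophantine in every finitely generated field over an algebraic extension of
the prime field. -/

namespace Pool.Agent.Results.MP_28f2cb_lc.AllCharP

theorem result (p : ℕ) [Fact p.Prime] (F K : Type*) [Field F] [Algebra (ZMod p) F]
    [Algebra.IsAlgebraic (ZMod p) F] [Field K] [Algebra F K] (m : ℕ) (a : Fin m → K)
    [FiniteDimensional (IntermediateField.adjoin F (Set.range a)) K] (S : Set (Fin m)) :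
    ∃ (n : ℕ) (P : MvPolynomial (Fin m ⊕ Option (Fin n)) ℤ), ∀ x : K,
      IsIntegral (Algebra.adjoin F (a '' S)) x ↔
        ∃ y : Fin n → K, MvPolynomial.aeval (Sum.elim a fun o => Option.elim o x y) P = 0 :=
  Pool.Agent.MP_28f2cb_lc.H93.Dp.out (Pool.Agent.MP_28f2cb_lc.H93.dp_main p a S)

end Pool.Agent.Results.MP_28f2cb_lc.AllCharP
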