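import Pool.Agent.MP_28f2cb_lc.H87.Main

/-! The integers are Diophantine in every subring of the rationals in which only odd primes that
are not `D`-th powers modulo `q` are inverted. -/

namespace Pool.Agent.Results.MP_28f2cb_lc.BigSubrings

open Pool.Agent.MP_28f2cb_lc.H87

theorem result (D q : ℕ) (hD : D.Prime) (hD2 : D ≠ 2) (hq : q.Prime) (hdvd : D ∣ q - 1) :
    ∃ (n : ℕ) (P : MvPolynomial (Fin (n + 1)) ℤ), ∀ R : Subring ℚ,
      (∀ x ∈ R, ∀ p : ℕ, p.Prime → p ∣ x.den → p ≠ 2 ∧ ¬ ∃ y : ZMod q, y ^ D = (p : ZMod q)) →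
      ∀ x ∈ R, ((∃ k : ℤ, x = k) ↔ ∃ y : Fin n → ℚ, (∀ i, y i ∈ R) ∧
        MvPolynomial.aeval (Fin.cons x y : Fin (n + 1) → ℚ) P = 0) := by
  have := Fact.mk hq
  obtain ⟨g, hg⟩ := IsCyclic.exists_monoid_generator (α := (ZMod q)ˣ)
  obtain ⟨n, P, h⟩ := (dio_int ⟨D, q, hD, hD2, hq, hdvd, g, hg⟩).out
  exact ⟨n, P, fun R hR => h R fun x hx p hp hd => ⟨hp, hR x hx p hp hd⟩⟩

end Pool.Agent.Results.MP_28f2cb_lc.BigSubrings
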