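import Pool.Agent.MP_28f2cb_lc.H85.HM

/-! The set of non-integers is Diophantine over the rationals with four unknowns. -/

namespace Pool.Agent.Results.MP_28f2cb_lc.FourQuantifiers

open Pool.Agent.MP_28f2cb_lc.H85 MvPolynomial

theorem result : ∃ P : MvPolynomial (Fin (4 + 1)) ℤ, ∀ q : ℚ,
    (¬ ∃ z : ℤ, (z : ℚ) = q) ↔
      ∃ y : Fin 4 → ℚ, MvPolynomial.aeval (Fin.cons q y : Fin (4 + 1) → ℚ) P = 0 := by
  refine ⟨Pm (X 0) (X 1) (X 2) 1 (X 3) (X 4) * Pm (X 0) (X 1) 1 0 (X 3) (X 4) *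
    (7 + 8 * X 0 ^ 4 - (X 3 ^ 2 + X 4 ^ 2 + X 2 ^ 2)), fun q => ?_⟩
  have key : ∀ y : Fin 4 → ℚ, MvPolynomial.aeval (Fin.cons q y : Fin (4 + 1) → ℚ)
      (Pm (X 0) (X 1) (X 2) 1 (X 3) (X 4) * Pm (X 0) (X 1) 1 0 (X 3) (X 4) *
        (7 + 8 * X 0 ^ 4 - (X 3 ^ 2 + X 4 ^ 2 + X 2 ^ 2)) : MvPolynomial (Fin (4 + 1)) ℤ) =
      Pm q (y 0) (y 1) 1 (y 2) (y 3) * Pm q (y 0) 1 0 (y 2) (y 3) *
        (7 + 8 * q ^ 4 - (y 2 ^ 2 + y 3 ^ 2 + y 1 ^ 2)) := by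
    intro y
    simp only [Pm, Pg, Pb, map_mul, map_add, map_sub, map_pow, map_one, map_zero, map_ofNat, aeval_X]
    rfl
  rw [not_int_iff]
  constructor
  · rintro ⟨s, u, y, z, h⟩
    exact ⟨![s, u, y, z], by rw [key]; exact h⟩
  · rintro ⟨y, h⟩
    rw [key] at h
    exact ⟨_, _, _, _, h⟩

end Pool.Agent.Results.MP_28f2cb_lc.FourQuantifiers
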