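import Pool.Agent.MP_28f2cb_lc.H31.Main

/-! Local-global barrier for existential definitions of the integers in the rationals. -/

namespace Pool.Agent.Results.MP_28f2cb_lc.HasseBarrier

/-- The system `P (q, y) = 0` has a solution `y` over the reals and over every `ℚ_p`. -/
def LocallySoluble {m n : ℕ} (P : Fin m → MvPolynomial (Fin (n + 1)) ℤ) (q : ℚ) : Prop :=
  (∃ y : Fin n → ℝ, ∀ j, MvPolynomial.aeval (Fin.cons (q : ℝ) y : Fin (n + 1) → ℝ) (P j) = 0) ∧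
    ∀ (p : ℕ) [Fact p.Prime], ∃ y : Fin n → ℚ_[p],
      ∀ j, MvPolynomial.aeval (Fin.cons (q : ℚ_[p]) y : Fin (n + 1) → ℚ_[p]) (P j) = 0

theorem result (r m n : ℕ) (P : Fin r → Fin m → MvPolynomial (Fin (n + 1)) ℤ) (a N : ℕ)
    (hN : N ≠ 0) (ha : a.Coprime N)
    (h : ∀ M b B : ℕ, M ≠ 0 → N ∣ M → b.Coprime M → b ≡ a [MOD N] →
      ∃ k : ℕ, B ≤ k ∧ k ≡ b [MOD M] ∧ ∃ i, LocallySoluble (P i) (k : ℚ)) :
    ∃ C : ℝ, ∀ (s t : ℝ) (B : ℕ), C ≤ s → s < t →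
      ∃ q : ℚ, s < (q : ℝ) ∧ (q : ℝ) < t ∧ (∃ l : ℕ, l.Prime ∧ B < l ∧ l ∣ q.den) ∧
        ∃ i, LocallySoluble (P i) q :=
  Pool.Agent.MP_28f2cb_lc.H31.barrier P hN ha h

end Pool.Agent.Results.MP_28f2cb_lc.HasseBarrier
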